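import Pool.Agent.helper65.GF.SpecG

/-! Row YVB. -/

set_option autoImplicit false

namespace Pool.Agent.GD

open Finset

theorem YVB : YVB_stmt := by
  intro β hβ n
  induction n using Nat.strong_induction_on with
  | _ n ih =>
    cases n with
    | zero => rw [ex_zero]; simp
    | succ n =>
      rw [ex, norm_mul, norm_div, norm_one]
      have hn : ‖((n : ℂ) + 1)‖ = (n : ℝ) + 1 := by
        have : ((n : ℂ) + 1) = (((n : ℝ) + 1 : ℝ) : ℂ) := by push_cast; ring
        rw [this, Complex.norm_real, Real.norm_of_nonneg (by positivity)]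
      rw [hn]
      have h1 : ‖∑ q : Fin (n + 1), β (n + 1 - q) * ex 1 β q‖ ≤ (n : ℝ) + 1 := by
        calc ‖∑ q : Fin (n + 1), β (n + 1 - q) * ex 1 β q‖ ≤ ∑ q : Fin (n + 1), ‖β (n + 1 - q) * ex 1 β q‖ := norm_sum_le _ _
          _ ≤ ∑ _q : Fin (n + 1), (1 : ℝ) := by
            refine Finset.sum_le_sum fun q _ => ?_
            rw [norm_mul]
            exact mul_le_one₀ (hβ _) (norm_nonneg _) (ih q.val q.isLt)
          _ = (n : ℝ) + 1 := by simp
      have hpos : (0 : ℝ) < (n : ℝ) + 1 := by positivity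
      calc 1 / ((n : ℝ) + 1) * ‖∑ q : Fin (n + 1), β (n + 1 - q) * ex 1 β q‖ ≤ 1 / ((n : ℝ) + 1) * ((n : ℝ) + 1) :=
            mul_le_mul_of_nonneg_left h1 (by positivity)
        _ = 1 := by field_simp

end Pool.Agent.GD
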